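import Pool.Agent.P.MP_3a5611_an.Main

open Filter Topology Pool.Agent.P.MP_3a5611_an

/-- Q2: along every blowing-up sequence of positive radial solutions, `n ≥ 3`, the difference
between the energy and the Moser-Trudinger threshold is eventually negative. -/
theorem Pool.Agent.Results.MP_3a5611_an.NegativeSign.result (n : ℕ) (hn : 3 ≤ n)
    (lam : ℕ → ℝ) (u : ℕ → EuclideanSpace ℝ (Fin n) → ℝ)
    (Du : ℕ → EuclideanSpace ℝ (Fin n) → EuclideanSpace ℝ (Fin n))
    (hlam : ∀ k, 0 < lam k) (hsol : ∀ k, IsRadialSolution n (lam k) (u k) (Du k))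
    (hb : BlowsUp n u) :
    ∀ᶠ k in atTop, energy n (Du k) - (n : ℝ) ^ (n - 1) * sphereArea n < 0 := by
  filter_upwards [eventually_bounds hn hlam hsol hb 1 one_pos] with k hk
  linarith [hk.2]
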