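import Pool.Agent.P.MP_3a5611_an.Main

open Filter Topology Pool.Agent.P.MP_3a5611_an

/-- Q1: energy quantization for blowing-up positive radial solutions, `n ≥ 3`. -/
theorem Pool.Agent.Results.MP_3a5611_an.Quantization.result (n : ℕ) (hn : 3 ≤ n)
    (lam : ℕ → ℝ) (u : ℕ → EuclideanSpace ℝ (Fin n) → ℝ)
    (Du : ℕ → EuclideanSpace ℝ (Fin n) → EuclideanSpace ℝ (Fin n))
    (hlam : ∀ k, 0 < lam k) (hsol : ∀ k, IsRadialSolution n (lam k) (u k) (Du k))
    (hb : BlowsUp n u) :
    Tendsto (fun k => energy n (Du k)) atTop (𝓝 ((n : ℝ) ^ (n - 1) * sphereArea n)) := by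
  have hc : 0 < (n : ℝ) ^ (n - 1) * sphereArea n := by
    have := sphereArea_pos (n := n) (by omega)
    have : (0 : ℝ) < n := by exact_mod_cast (show 0 < n by omega)
    positivity
  have key := eventually_bounds hn hlam hsol hb
  generalize (n : ℝ) ^ (n - 1) * sphereArea n = c at hc key ⊢
  rw [tendsto_order]
  constructor
  · intro a ha
    have hη : 0 < (c - a) / (2 * c) := by apply div_pos <;> linarith
    filter_upwards [key _ hη] with k hk
    have e : (1 - (c - a) / (2 * c)) * c = (c + a) / 2 := by field_simp; ring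
    linarith [hk.1]
  · intro a ha
    filter_upwards [key 1 one_pos] with k hk
    exact hk.2.trans ha
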